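import Pool.Agent.Work.MP_055a27_an.Fn.Stmts

/-!
# Gain of aperture: definitions and statements of the items

Let `U` satisfy `Star b b p`. The translations along the edges of the cone form a bounded analytic
semigroup for the norm `(∫ N_b(F) ^ p U) ^ (1 / p)`, therefore the shadow condition with aperture
`b` improves to an aperture larger than `b`. This gives the necessity of `∃ μ > lam, Sh μ U` for
`Star lam b p`, `b ≤ lam`.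
-/

open MeasureTheory Set Filter Topology Complex Metric
open scoped ENNReal NNReal

namespace Pool.Agent.Work.MP_055a27_an.Sg

open Crit (lg NTc Nice NI)
open Cr3 (Wt Sh)
open Fn (StarC ShK Ex Vp Vs Uav lgm NV)

/-! ### Definitions -/

/-- Analytic and bounded in a half plane which contains the closed upper half plane. -/
def An (F : ℂ → ℂ) : Prop := ∃ δ M : ℝ, 0 < δ ∧
  ∀ w : ℂ, -δ < w.im → DifferentiableAt ℂ F w ∧ ‖F w‖ ≤ M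

/-- The direction of an edge of the cone, `σ = 1` or `σ = -1`. -/
noncomputable def ed (b σ : ℝ) : ℂ := ((σ * b : ℝ) : ℂ) + I

/-- The area function of an analytic function. -/
noncomputable def SF (F : ℂ → ℂ) (lam x : ℝ) : ℝ≥0∞ :=
  (∫⁻ q in cone lam x, ENNReal.ofReal (‖deriv F (q.1 + q.2 * I)‖ ^ 2)) ^ (1 / 2 : ℝ)

/-- The component of frequency `θ` of the translates of `F`. -/
noncomputable def PF (χ : ℝ → ℝ) (θ t : ℝ) (e : ℂ) (F : ℂ → ℂ) (w : ℂ) : ℂ :=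
  ∫ h in (0 : ℝ)..1, (χ h : ℂ) * Complex.exp (-(I * (θ * h : ℝ))) * F (w + (t * h : ℝ) * e)

/-! ### Translations -/

/-- 1 AnC: closure properties. -/
def StAnC : Prop := ∀ F : ℂ → ℂ, An F → Nice F ∧ An (deriv F) ∧
  (∀ v : ℂ, 0 ≤ v.im → An (fun w => F (w + v))) ∧ (∀ c : ℂ, An (fun w => c * F w)) ∧
  (∀ G : ℂ → ℂ, An G → An (fun w => F w + G w)) ∧
  ∀ (b x : ℝ) (v : ℂ), 0 ≤ v.im → |v.re| ≤ b * v.im → NTc (fun w => F (w + v)) b x ≤ NTc F b x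

/-- 2 SFb: the inequality of the problem for analytic functions. -/
def StSFb : Prop := ∀ (C0 : ℝ≥0) (lam b p : ℝ) (U : ℝ → ℝ), 0 < p → IsWeight U →
  StarC C0 lam b p U → ∀ F : ℂ → ℂ, Nice F →
    ∫⁻ x, (SF F lam x) ^ p * ENNReal.ofReal (U x) ≤ C0 * NI U F b p

/-- 3 Pt: the pointwise lower bound for the area function. -/
def StPt : Prop := ∀ b : ℝ, 0 < b → ∃ c : ℝ, 0 < c ∧ ∀ (σ : ℝ) (F : ℂ → ℂ) (θ c1 x : ℝ),
  |σ| = 1 → Nice F → θ ≠ 0 → 0 < c1 → c1 ≤ 1 / 16 → NTc F b x ≠ ∞ →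
  NTc (fun w => ed b σ * deriv F w - I * θ * F w) b x ≤
    ENNReal.ofReal (c1 * |θ|) * NTc F b x →
  ENNReal.ofReal (c / c1) * (NTc F b x) ^ 2 ≤ (SF F b x) ^ 2

/-- 4 Res: the resolvent estimate. -/
def StRes : Prop := ∀ (C0 : ℝ≥0) (b p : ℝ), 0 < b → 0 < p → ∃ c : ℝ, 0 < c ∧
  ∀ U : ℝ → ℝ, IsWeight U → StarC C0 b b p U → ∀ (σ θ : ℝ) (F : ℂ → ℂ), |σ| = 1 → An F →
    NI U F b p ≠ ∞ →
    ENNReal.ofReal ((c * |θ|) ^ p) * NI U F b p ≤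
      NI U (fun w => ed b σ * deriv F w - I * θ * F w) b p

/-- 5 PFb: properties of the components. -/
def StPFb : Prop := ∀ (F : ℂ → ℂ) (e : ℂ) (t θ : ℝ) (χ : ℝ → ℝ), An F → 0 < e.im → 0 < t →
  ContDiff ℝ 1 χ → An (PF χ θ t e F) ∧
  (χ 0 = 0 → χ 1 = 0 → ∀ w : ℂ, 0 ≤ w.im →
    t * e * deriv (PF χ θ t e F) w - I * θ * PF χ θ t e F w = -PF (deriv χ) θ t e F w) ∧
  ∀ b x M : ℝ, |e.re| ≤ b * e.im → (∀ h ∈ Icc (0 : ℝ) 1, |χ h| ≤ M) →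
    NTc (PF χ θ t e F) b x ≤ ENNReal.ofReal M * NTc F b x

/-- 6 FS: Fourier series. -/
def StFS : Prop := ∀ u u' : ℝ → ℂ, (∀ h ∈ Icc (0 : ℝ) 1, HasDerivAt u (u' h) h) →
  ContinuousOn u' (Icc 0 1) → u 0 = 0 → u 1 = 0 → u' 0 = 0 → u' 1 = 0 →
  ENNReal.ofReal ‖u' (1 / 2)‖ ≤ ∑' k : ℤ, ENNReal.ofReal (2 * Real.pi * |(k : ℝ)| *
    ‖∫ h in (0 : ℝ)..1, Complex.exp (-(I * (2 * Real.pi * k * h : ℝ))) * u h‖)

/-- 7 Gen: the derivative of the translates. -/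
def StGen : Prop := ∀ (C0 : ℝ≥0) (b p : ℝ), 0 < b → 0 < p → ∃ C : ℝ, 1 ≤ C ∧
  ∀ U : ℝ → ℝ, IsWeight U → StarC C0 b b p U → ∀ (σ t : ℝ) (F : ℂ → ℂ), |σ| = 1 → 0 < t →
    An F → NI U F b p ≠ ∞ →
    NI U (fun w => t * ed b σ * deriv F (w + t * ed b σ)) b p ≤
      ENNReal.ofReal (C ^ p) * NI U F b p

/-- 8 Tay: translations with directions outside the cone. -/
def StTay : Prop := ∀ (C0 : ℝ≥0) (b p : ℝ), 0 < b → 0 < p → ∃ (η : ℝ) (C : ℝ≥0), 0 < η ∧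
  η * (1 + b) ≤ 1 / 2 ∧ ∀ U : ℝ → ℝ, IsWeight U → StarC C0 b b p U →
    ∀ (σ t : ℝ) (F : ℂ → ℂ), |σ| = 1 → 0 < t → An F → NI U F b p ≠ ∞ →
    NI U (fun w => F (w + t * ed b σ * (1 - I * (σ * η : ℝ)))) b p ≤ C * NI U F b p

/-- 9 Gain: the mass of a larger shadow. -/
def StGain : Prop := ∀ (C0 : ℝ≥0) (b p : ℝ), 0 < b → 0 < p → ∃ (μ : ℝ) (C : ℝ≥0), b < μ ∧
  ∀ U : ℝ → ℝ, IsWeight U → StarC C0 b b p U → ∀ F : ℂ → ℂ, An F → NI U F b p ≠ ∞ →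
    ∀ z y : ℝ, 0 < y →
    wm U (Icc (z - μ * y) (z + μ * y)) * ENNReal.ofReal (‖F (z + y * I)‖ ^ p) ≤
      C * NI U F b p

/-! ### The shadow condition -/

/-- 10 CostB: upper bound for the maximal functions of the test functions, equal apertures. -/
def StCostB : Prop := ∀ (b p ε : ℝ) (k : ℕ), 0 < b → 0 < p → 4 ≤ k * p → 0 < ε →
  ∃ C : ℝ, 0 ≤ C ∧ ∀ (U l : ℝ → ℝ) (c κ x0 β A : ℝ) (H : ℂ → ℂ), IsWeight U → Admissible l →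
    0 ≤ κ → 0 < β → 0 ≤ A → ShK b κ c U l →
    (∀ z y : ℝ, 0 < y → ‖H (z + y * I)‖ ≤
      A * Real.exp (-Vp l c z (y + ε * β) / p) * (β / ‖(z : ℂ) + y * I - x0 + β * I‖) ^ k) →
    ∫⁻ x, (NTc H b x) ^ p * ENNReal.ofReal (U x) ≤ ENNReal.ofReal (C * A ^ p * κ * β)

/-- 11 GainK: the shadow condition with a larger aperture. -/
def StGainK : Prop := ∀ (C0 : ℝ≥0) (b p : ℝ), 0 < b → 0 < p → ∃ μ C : ℝ, b < μ ∧ 0 ≤ C ∧
  ∀ (U l : ℝ → ℝ) (c κ : ℝ), IsWeight U → Ex l → 0 ≤ c → StarC C0 b b p U → 0 ≤ κ →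
    ShK b κ c U l → ShK μ (C * κ) c U l

/-- 12 UnifB: the uniform bound for the constant of the shadow condition. -/
def StUnifB : Prop := ∀ (C0 : ℝ≥0) (b p : ℝ), 0 < b → 0 < p → ∃ μ K : ℝ, b < μ ∧ 0 ≤ K ∧
  ∀ (U l : ℝ → ℝ) (c : ℝ), IsWeight U → Ex l → 0 ≤ c → (∀ᵐ x, U x ≤ Real.exp (l x)) →
    StarC C0 b b p U → (∃ κ : ℝ, 0 ≤ κ ∧ ShK μ κ c U l) → ShK μ K c U l

/-- 13 NecB: necessity of the shadow condition. -/
def StNecB : Prop := ∀ (lam b p : ℝ) (U : ℝ → ℝ), 0 < b → b ≤ lam → 0 < p → IsWeight U →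
  NV U → Star lam b p U → (∀ᵐ x, U x = 0) ∨ (Wt U ∧ ∃ μ : ℝ, lam < μ ∧ Sh μ U)

end Pool.Agent.Work.MP_055a27_an.Sg
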