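import Pool.Agent.Work.MP_055a27_an.Sg.Stmts
import Pool.Agent.Work.MP_055a27_an.Fn.Cost

/-!
# Gain of aperture: upper bound for the maximal functions of the test functions, equal apertures
-/

set_option autoImplicit false

open MeasureTheory Set Filter Topology Complex Metric
open scoped ENNReal NNReal

namespace Pool.Agent.Work.MP_055a27_an.Sg

open Crit (lg NTc Nice NI)
open Cr3 (Wt Sh)
open Fn (StarC ShK Ex Vp Vs Uav lgm NV)

namespace CostBX

/-- The decay of the test function. -/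
lemma decay {z y x0 β ε Y D : ℝ} (hβ : 0 < β) (hε : 0 < ε) (hy : 0 < y) (h1 : Y ≤ y + ε * β)
    (hY : 0 < Y) (hD : 0 ≤ D) (hz : D ≤ |z - x0|) :
    0 < β / ‖(z : ℂ) + y * I - x0 + β * I‖ ∧ β / ‖(z : ℂ) + y * I - x0 + β * I‖ ≤ 1 ∧
    (β / ‖(z : ℂ) + y * I - x0 + β * I‖) ^ 4 ≤
      4 * (1 + ε) ^ 4 * (1 / (1 + Y / β) ^ 2) * (1 / (1 + Y / β + D / β) ^ 2) := by
  have hN : |z - x0| ≤ ‖(z : ℂ) + y * I - x0 + β * I‖ := by
    have h := Complex.abs_re_le_norm ((z : ℂ) + y * I - x0 + β * I)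
    simpa using h
  have hN2 : y + β ≤ ‖(z : ℂ) + y * I - x0 + β * I‖ := by
    have h := Complex.abs_im_le_norm ((z : ℂ) + y * I - x0 + β * I)
    simp only [add_im, sub_im, ofReal_im, mul_im, ofReal_re, I_im, mul_one, I_re, mul_zero,
      add_zero, zero_add, sub_zero] at h
    exact (le_abs_self _).trans h
  set N : ℝ := ‖(z : ℂ) + y * I - x0 + β * I‖ with hNd
  have hNpos : 0 < N := by linarith
  have hg0 : 0 < β / N := div_pos hβ hNpos
  have e1 : β / N ≤ (1 + ε) / (1 + Y / β) := by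
    rw [div_le_div_iff₀ hNpos (by positivity)]
    have : β * (1 + Y / β) = β + Y := by field_simp
    rw [this]
    nlinarith
  have e2 : β / N ≤ 2 * (1 + ε) / (1 + Y / β + D / β) := by
    rw [div_le_div_iff₀ hNpos (by positivity)]
    have : β * (1 + Y / β + D / β) = β + Y + D := by field_simp
    rw [this]
    nlinarith
  refine ⟨hg0, ?_, ?_⟩
  · rw [div_le_one hNpos]
    linarith
  · calc (β / N) ^ 4 = (β / N) ^ 2 * (β / N) ^ 2 := by ring
      _ ≤ ((1 + ε) / (1 + Y / β)) ^ 2 * (2 * (1 + ε) / (1 + Y / β + D / β)) ^ 2 := by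
          apply mul_le_mul (pow_le_pow_left₀ hg0.le e1 2) (pow_le_pow_left₀ hg0.le e2 2)
            (by positivity) (by positivity)
      _ = 4 * (1 + ε) ^ 4 * (1 / (1 + Y / β) ^ 2) * (1 / (1 + Y / β + D / β) ^ 2) := by
          rw [div_pow, div_pow]
          ring

/-- The heights of the cells. -/
noncomputable def hgt (ε β δ : ℝ) (j : ℕ) : ℝ := ε * β + j * δ

/-- The weight of a cell. -/
noncomputable def om (ε s : ℝ) (j n : ℕ) : ℝ :=
  4 * (1 + ε) ^ 4 * (1 / (1 + (ε + j * s)) ^ 2) * (1 / (1 + (ε + j * s) + n * s) ^ 2)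

lemma hgt_pos {ε β δ : ℝ} (hε : 0 < ε) (hβ : 0 < β) (hδ : 0 < δ) (j : ℕ) : 0 < hgt ε β δ j := by
  unfold hgt
  positivity

lemma hgt_succ (ε β δ : ℝ) (j : ℕ) : hgt ε β δ (j + 1) = hgt ε β δ j + δ := by
  unfold hgt
  push_cast
  ring

lemma om_nonneg {ε s : ℝ} (hε : 0 < ε) (hs : 0 < s) (j n : ℕ) : 0 ≤ om ε s j n := by
  unfold om
  positivity

lemma sumSqA {A s : ℝ} (hA : 1 ≤ A) (hs : 0 < s) (N : ℕ) :
    ∑ n ∈ Finset.range N, 1 / (A + (n : ℝ) * s) ^ 2 ≤ (1 + 1 / s) / A := by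
  have hA0 : 0 < A := by linarith
  have h1 := Fn.Cost.sumSq' (div_pos hs hA0) N
  have h2 : ∑ n ∈ Finset.range N, 1 / (A + (n : ℝ) * s) ^ 2 =
      (1 / A ^ 2) * ∑ n ∈ Finset.range N, 1 / (1 + (n : ℝ) * (s / A)) ^ 2 := by
    rw [Finset.mul_sum]
    refine Finset.sum_congr rfl fun n _ => ?_
    have h3 : A + (n : ℝ) * s = A * (1 + (n : ℝ) * (s / A)) := by
      field_simp
    rw [h3, mul_pow]
    have h4 : 0 < 1 + (n : ℝ) * (s / A) := by positivity
    field_simp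
  rw [h2]
  refine (mul_le_mul_of_nonneg_left h1 (by positivity)).trans ?_
  have h5 : 1 / A ^ 2 * (1 + 1 / (s / A)) = (1 / A + 1 / s) / A := by
    field_simp
  rw [h5]
  apply div_le_div_of_nonneg_right _ hA0.le
  have h6 : 1 / A ≤ 1 := by
    rw [div_le_one hA0]
    exact hA
  linarith

/-- The sum over the cells of one height. -/
lemma sumRow {ε β s E : ℝ} (hε : 0 < ε) (hβ : 0 < β) (hs : 0 < s) (hE : 0 ≤ E) (j : ℕ) :
    ∑' n : ℕ, ENNReal.ofReal (E * (om ε s j n * hgt ε β (s * β) (j + 1))) ≤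
      ENNReal.ofReal (E * (4 * (1 + ε) ^ 4 * (1 + s) * (1 + 1 / s) * β) *
        (1 / (1 + (j : ℝ) * s) ^ 2)) := by
  have hh := hgt_pos hε hβ (mul_pos hs hβ) (j + 1)
  refine ENNReal.tsum_le_of_sum_range_le fun N => ?_
  have hnn : ∀ n ∈ Finset.range N, 0 ≤ E * (om ε s j n * hgt ε β (s * β) (j + 1)) := fun n _ =>
    mul_nonneg hE (mul_nonneg (om_nonneg hε hs j n) hh.le)
  rw [← ENNReal.ofReal_sum_of_nonneg hnn]
  apply ENNReal.ofReal_le_ofReal
  set A : ℝ := 1 + (ε + j * s) with hA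
  have hjs : 0 ≤ (j : ℝ) * s := by positivity
  have hA1 : 1 ≤ A := by linarith
  have hA0 : 0 < A := by linarith
  have h1 : ∑ n ∈ Finset.range N, E * (om ε s j n * hgt ε β (s * β) (j + 1)) =
      E * (4 * (1 + ε) ^ 4 * (1 / A ^ 2) * hgt ε β (s * β) (j + 1)) *
        ∑ n ∈ Finset.range N, 1 / (A + (n : ℝ) * s) ^ 2 := by
    rw [Finset.mul_sum]
    refine Finset.sum_congr rfl fun n _ => ?_
    rw [om, ← hA]
    ring
  rw [h1]
  have h2 := sumSqA hA1 hs N
  have h3 : 0 ≤ E * (4 * (1 + ε) ^ 4 * (1 / A ^ 2) * hgt ε β (s * β) (j + 1)) := by positivity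
  refine (mul_le_mul_of_nonneg_left h2 h3).trans ?_
  have h4 : hgt ε β (s * β) (j + 1) ≤ β * ((1 + s) * A) := by
    have : hgt ε β (s * β) (j + 1) = β * (ε + j * s + s) := by
      unfold hgt
      push_cast
      ring
    rw [this]
    apply mul_le_mul_of_nonneg_left _ hβ.le
    nlinarith
  have h5 : 1 / A ^ 2 ≤ 1 / (1 + (j : ℝ) * s) ^ 2 := by
    apply one_div_le_one_div_of_le (by positivity)
    apply pow_le_pow_left₀ (by positivity)
    linarith
  calc E * (4 * (1 + ε) ^ 4 * (1 / A ^ 2) * hgt ε β (s * β) (j + 1)) * ((1 + 1 / s) / A)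
      ≤ E * (4 * (1 + ε) ^ 4 * (1 / A ^ 2) * (β * ((1 + s) * A))) * ((1 + 1 / s) / A) := by
        apply mul_le_mul_of_nonneg_right _ (by positivity)
        apply mul_le_mul_of_nonneg_left _ hE
        apply mul_le_mul_of_nonneg_left h4 (by positivity)
    _ = E * (4 * (1 + ε) ^ 4 * (1 + s) * (1 + 1 / s) * β) * (1 / A ^ 2) := by
        field_simp
    _ ≤ _ := mul_le_mul_of_nonneg_left h5 (by positivity)

/-- The sum over all cells. -/
lemma sumAll {ε β s E : ℝ} (hε : 0 < ε) (hβ : 0 < β) (hs : 0 < s) (hE : 0 ≤ E) :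
    ∑' Q : ℕ × Bool × ℕ, ENNReal.ofReal (E * (om ε s Q.1 Q.2.2 * hgt ε β (s * β) (Q.1 + 1))) ≤
      ENNReal.ofReal (E * (8 * (1 + ε) ^ 4 * (1 + s) * (1 + 1 / s) ^ 2) * β) := by
  rw [ENNReal.tsum_prod']
  have h1 : ∀ j : ℕ, ∑' b : Bool × ℕ, ENNReal.ofReal (E * (om ε s j b.2 *
      hgt ε β (s * β) (j + 1))) ≤ ENNReal.ofReal (2 * (E * (4 * (1 + ε) ^ 4 * (1 + s) *
        (1 + 1 / s) * β)) * (1 / (1 + (j : ℝ) * s) ^ 2)) := by
    intro j
    rw [ENNReal.tsum_prod', tsum_bool]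
    have h2 := sumRow hε hβ hs hE j
    refine (add_le_add h2 h2).trans ?_
    rw [← ENNReal.ofReal_add (by positivity) (by positivity)]
    apply ENNReal.ofReal_le_ofReal
    linarith
  refine (ENNReal.tsum_le_tsum h1).trans ?_
  refine ENNReal.tsum_le_of_sum_range_le fun N => ?_
  rw [← ENNReal.ofReal_sum_of_nonneg (fun n _ => by positivity), ← Finset.mul_sum]
  apply ENNReal.ofReal_le_ofReal
  refine (mul_le_mul_of_nonneg_left (Fn.Cost.sumSq' hs N) (by positivity)).trans ?_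
  apply le_of_eq
  ring

/-- The pointwise bound. -/
lemma pointwise {b p ε c β A x0 s : ℝ} {k : ℕ} {l : ℝ → ℝ} {H : ℂ → ℂ} (hb : 0 < b)
    (hs : 0 < s) (hbs : (b + 1) * s ≤ b * ε) (hp : 0 < p) (hk : 4 ≤ k * p)
    (hε : 0 < ε) (hβ : 0 < β) (hA : 0 ≤ A)
    (hH : ∀ z y : ℝ, 0 < y → ‖H (z + y * I)‖ ≤
      A * Real.exp (-Vp l c z (y + ε * β) / p) * (β / ‖(z : ℂ) + y * I - x0 + β * I‖) ^ k)
    (w : ℕ × Bool × ℕ → ℝ × ℝ)
    (hw : ∀ Q, (w Q).1 ∈ Icc (Fn.Cost.lft x0 1 (s * β) Q.2.1 Q.2.2)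
        (Fn.Cost.lft x0 1 (s * β) Q.2.1 Q.2.2 + 1 * (s * β)) ∧
      (w Q).2 ∈ Icc (hgt ε β (s * β) Q.1) (hgt ε β (s * β) (Q.1 + 1)) ∧
      ∀ z y : ℝ, z ∈ Icc (Fn.Cost.lft x0 1 (s * β) Q.2.1 Q.2.2)
        (Fn.Cost.lft x0 1 (s * β) Q.2.1 Q.2.2 + 1 * (s * β)) →
        y ∈ Icc (hgt ε β (s * β) Q.1) (hgt ε β (s * β) (Q.1 + 1)) →
        Vp l c (w Q).1 (w Q).2 ≤ Vp l c z y) (x : ℝ) :
    (NTc H b x) ^ p ≤ ∑' Q : ℕ × Bool × ℕ,
      ENNReal.ofReal (A ^ p * Real.exp (-Vp l c (w Q).1 (w Q).2) * om ε s Q.1 Q.2.2) *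
        (Icc ((w Q).1 - b * (w Q).2) ((w Q).1 + b * (w Q).2)).indicator (fun _ => (1 : ℝ≥0∞)) x := by
  set S := ∑' Q : ℕ × Bool × ℕ,
      ENNReal.ofReal (A ^ p * Real.exp (-Vp l c (w Q).1 (w Q).2) * om ε s Q.1 Q.2.2) *
        (Icc ((w Q).1 - b * (w Q).2) ((w Q).1 + b * (w Q).2)).indicator (fun _ => (1 : ℝ≥0∞)) x
    with hS
  have key : NTc H b x ≤ S ^ (1 / p) := by
    unfold NTc
    refine iSup_le fun z => iSup_le fun y => iSup_le fun ⟨hy, hz⟩ => ?_
    rw [one_div, ENNReal.le_rpow_inv_iff hp]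
    have hδ : 0 < s * β := mul_pos hs hβ
    have hj1 : (⌊y / (s * β)⌋₊ : ℝ) * (s * β) ≤ y := by
      have := Nat.floor_le (div_nonneg hy.le hδ.le)
      rwa [le_div_iff₀ hδ] at this
    have hj2 : y < ((⌊y / (s * β)⌋₊ : ℝ) + 1) * (s * β) := by
      have := Nat.lt_floor_add_one (y / (s * β))
      rwa [div_lt_iff₀ hδ] at this
    set j := ⌊y / (s * β)⌋₊ with hj
    have hYj := hgt_pos hε hβ hδ j
    have hj1' : hgt ε β (s * β) j ≤ y + ε * β := by unfold hgt; linarith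
    have hj2' : y + ε * β ≤ hgt ε β (s * β) (j + 1) := by unfold hgt; push_cast; linarith
    obtain ⟨σ, n, hcell, hdist⟩ := Fn.Cost.exCell (x0 := x0) (z := z) one_pos hδ
    obtain ⟨hw1, hw2, hw3⟩ := hw (j, σ, n)
    simp only at hw1 hw2 hw3
    refine le_trans ?_ (ENNReal.le_tsum (j, σ, n))
    have hmem : x ∈ Icc ((w (j, σ, n)).1 - b * (w (j, σ, n)).2)
        ((w (j, σ, n)).1 + b * (w (j, σ, n)).2) := by
      have h1 : b * hgt ε β (s * β) j ≤ b * (w (j, σ, n)).2 :=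
        mul_le_mul_of_nonneg_left hw2.1 hb.le
      have h2 : (b + 1) * s * β ≤ b * ε * β := mul_le_mul_of_nonneg_right hbs hβ.le
      have h3 : b * y ≤ b * (hgt ε β (s * β) j + s * β - ε * β) := by
        apply mul_le_mul_of_nonneg_left _ hb.le
        rw [hgt_succ] at hj2'
        linarith
      have h5 : b * (hgt ε β (s * β) j + s * β - ε * β) + s * β ≤ b * hgt ε β (s * β) j := by
        nlinarith
      have h4 := abs_le.1 hz
      constructor
      · linarith [h4.1, h4.2, hw1.1, hw1.2, hcell.1, hcell.2]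
      · linarith [h4.1, h4.2, hw1.1, hw1.2, hcell.1, hcell.2]
    rw [indicator_of_mem hmem, mul_one, ENNReal.ofReal_rpow_of_nonneg (norm_nonneg _) hp.le]
    refine ENNReal.ofReal_le_ofReal ?_
    obtain ⟨g0, g1, g2⟩ := decay (x0 := x0) (D := n * (1 * (s * β))) hβ hε hy hj1' hYj
      (by positivity) hdist
    set g := β / ‖(z : ℂ) + y * I - x0 + β * I‖ with hg
    calc ‖H (z + y * I)‖ ^ p
        ≤ (A * Real.exp (-Vp l c z (y + ε * β) / p) * g ^ k) ^ p :=
          Real.rpow_le_rpow (norm_nonneg _) (hH z y hy) hp.le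
      _ = A ^ p * Real.exp (-Vp l c z (y + ε * β)) * (g ^ k) ^ p := by
          rw [Real.mul_rpow (by positivity) (by positivity), Real.mul_rpow hA (Real.exp_pos _).le,
            ← Real.exp_mul]
          congr 3
          field_simp
      _ ≤ A ^ p * Real.exp (-Vp l c (w (j, σ, n)).1 (w (j, σ, n)).2) * om ε s j n := by
          apply mul_le_mul
          · apply mul_le_mul_of_nonneg_left _ (Real.rpow_nonneg hA p)
            apply Real.exp_le_exp.2
            exact neg_le_neg (hw3 z (y + ε * β) hcell ⟨hj1', hj2'⟩)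
          · refine (Fn.Cost.rpow_est hk g0 g1).trans (g2.trans (le_of_eq ?_))
            have e1 : hgt ε β (s * β) j / β = ε + j * s := by
              unfold hgt
              field_simp
            have e2 : (n : ℝ) * (1 * (s * β)) / β = n * s := by
              field_simp
            rw [om, e1, e2]
          · positivity
          · exact mul_nonneg (Real.rpow_nonneg hA p) (Real.exp_pos _).le
  calc (NTc H b x) ^ p ≤ (S ^ (1 / p)) ^ p := ENNReal.rpow_le_rpow key hp.le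
    _ = S := by
        rw [← ENNReal.rpow_mul, one_div, inv_mul_cancel₀ hp.ne', ENNReal.rpow_one]

end CostBX

open CostBX in
/-- 10 CostB: upper bound for the maximal functions of the test functions, equal apertures. -/
theorem stCostB : StCostB := by
  intro b p ε k hb hp hk hε
  set s := b * ε / (b + 1) with hsd
  have hs : 0 < s := by positivity
  have hs2 : (b + 1) * s ≤ b * ε := by
    rw [hsd]
    apply le_of_eq
    field_simp
  refine ⟨8 * (1 + ε) ^ 4 * (1 + s) * (1 + 1 / s) ^ 2, by positivity, ?_⟩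
  intro U l c κ x0 β A H hU hl hκ hβ hA hsh hH
  have hδ : 0 < s * β := mul_pos hs hβ
  have hex : ∀ Q : ℕ × Bool × ℕ, ∃ w : ℝ × ℝ,
      w.1 ∈ Icc (Fn.Cost.lft x0 1 (s * β) Q.2.1 Q.2.2)
        (Fn.Cost.lft x0 1 (s * β) Q.2.1 Q.2.2 + 1 * (s * β)) ∧
      w.2 ∈ Icc (hgt ε β (s * β) Q.1) (hgt ε β (s * β) (Q.1 + 1)) ∧
      ∀ z y : ℝ, z ∈ Icc (Fn.Cost.lft x0 1 (s * β) Q.2.1 Q.2.2)
        (Fn.Cost.lft x0 1 (s * β) Q.2.1 Q.2.2 + 1 * (s * β)) →
        y ∈ Icc (hgt ε β (s * β) Q.1) (hgt ε β (s * β) (Q.1 + 1)) →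
        Vp l c w.1 w.2 ≤ Vp l c z y := by
    intro Q
    have hY := hgt_pos hε hβ hδ Q.1
    refine Fn.Cost.exMin hl c ?_ hY ?_
    · linarith
    · rw [hgt_succ]
      linarith
  choose w hw using hex
  have hUm : AEMeasurable (fun x => ENNReal.ofReal (U x)) volume :=
    hU.2.aestronglyMeasurable.aemeasurable.ennreal_ofReal
  calc ∫⁻ x, (NTc H b x) ^ p * ENNReal.ofReal (U x)
      ≤ ∫⁻ x, ∑' Q : ℕ × Bool × ℕ,
        ENNReal.ofReal (A ^ p * Real.exp (-Vp l c (w Q).1 (w Q).2) * om ε s Q.1 Q.2.2) *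
        ((Icc ((w Q).1 - b * (w Q).2) ((w Q).1 + b * (w Q).2)).indicator
          (fun x => ENNReal.ofReal (U x)) x) := by
        refine lintegral_mono fun x => ?_
        refine (mul_le_mul_left (pointwise hb hs hs2 hp hk hε hβ hA hH w hw x) _).trans ?_
        rw [← ENNReal.tsum_mul_right]
        refine ENNReal.tsum_le_tsum fun Q => ?_
        rw [mul_assoc]
        refine mul_le_mul_right (le_of_eq ?_) _
        by_cases hx : x ∈ Icc ((w Q).1 - b * (w Q).2) ((w Q).1 + b * (w Q).2)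
        · rw [indicator_of_mem hx, indicator_of_mem hx, one_mul]
        · rw [indicator_of_notMem hx, indicator_of_notMem hx, zero_mul]
    _ = ∑' Q : ℕ × Bool × ℕ,
        ENNReal.ofReal (A ^ p * Real.exp (-Vp l c (w Q).1 (w Q).2) * om ε s Q.1 Q.2.2) *
        ∫⁻ x in Icc ((w Q).1 - b * (w Q).2) ((w Q).1 + b * (w Q).2), ENNReal.ofReal (U x) := by
        rw [lintegral_tsum]
        · refine tsum_congr fun Q => ?_
          rw [lintegral_const_mul'' _ (hUm.indicator measurableSet_Icc),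
            lintegral_indicator measurableSet_Icc]
        · intro Q
          exact (hUm.indicator measurableSet_Icc).const_mul _
    _ ≤ ∑' Q : ℕ × Bool × ℕ, ENNReal.ofReal (A ^ p * κ * (om ε s Q.1 Q.2.2 *
          hgt ε β (s * β) (Q.1 + 1))) := by
        refine ENNReal.tsum_le_tsum fun Q => ?_
        obtain ⟨-, hw2, -⟩ := hw Q
        have hwpos : 0 < (w Q).2 := lt_of_lt_of_le (hgt_pos hε hβ hδ Q.1) hw2.1
        have h1 : ∫⁻ x in Icc ((w Q).1 - b * (w Q).2) ((w Q).1 + b * (w Q).2),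
            ENNReal.ofReal (U x) =
            ENNReal.ofReal (∫ x in Icc ((w Q).1 - b * (w Q).2) ((w Q).1 + b * (w Q).2), U x) :=
          (ofReal_integral_eq_lintegral_ofReal (hU.2.integrableOn_isCompact isCompact_Icc)
            (Eventually.of_forall hU.1)).symm
        have hom := om_nonneg hε hs Q.1 Q.2.2
        have hAp : 0 ≤ A ^ p := Real.rpow_nonneg hA p
        rw [h1, ← ENNReal.ofReal_mul (mul_nonneg (mul_nonneg hAp (Real.exp_pos _).le) hom)]
        apply ENNReal.ofReal_le_ofReal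
        have h2 := hsh (w Q).1 (w Q).2 hwpos
        calc A ^ p * Real.exp (-Vp l c (w Q).1 (w Q).2) * om ε s Q.1 Q.2.2 *
              ∫ x in Icc ((w Q).1 - b * (w Q).2) ((w Q).1 + b * (w Q).2), U x
            ≤ A ^ p * Real.exp (-Vp l c (w Q).1 (w Q).2) * om ε s Q.1 Q.2.2 *
              (κ * ((w Q).2 * Real.exp (Vp l c (w Q).1 (w Q).2))) :=
              mul_le_mul_of_nonneg_left h2
                (mul_nonneg (mul_nonneg hAp (Real.exp_pos _).le) hom)
          _ = A ^ p * κ * (om ε s Q.1 Q.2.2 * (w Q).2) *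
              (Real.exp (-Vp l c (w Q).1 (w Q).2) * Real.exp (Vp l c (w Q).1 (w Q).2)) := by
              ring
          _ = A ^ p * κ * (om ε s Q.1 Q.2.2 * (w Q).2) := by
              rw [← Real.exp_add, neg_add_cancel, Real.exp_zero, mul_one]
          _ ≤ A ^ p * κ * (om ε s Q.1 Q.2.2 * hgt ε β (s * β) (Q.1 + 1)) :=
              mul_le_mul_of_nonneg_left (mul_le_mul_of_nonneg_left hw2.2 hom)
                (mul_nonneg hAp hκ)
    _ ≤ _ := sumAll hε hβ hs (mul_nonneg (Real.rpow_nonneg hA p) hκ)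
    _ = _ := by
        congr 1
        ring

end Pool.Agent.Work.MP_055a27_an.Sg
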