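import Pool.Agent.Work.MP_055a27_an.Sg.Stmts

/-!
# Gain of aperture: Fourier series
-/

set_option autoImplicit false

open MeasureTheory Set Filter Topology Complex Metric
open scoped ENNReal NNReal

namespace Pool.Agent.Work.MP_055a27_an.Sg

namespace FSX

/-- the exponential -/
noncomputable def ex (k : ℤ) (h : ℝ) : ℂ := Complex.exp (-(I * (2 * Real.pi * k * h : ℝ)))

theorem ex_norm (k : ℤ) (h : ℝ) : ‖ex k h‖ = 1 := by
  unfold ex
  rw [Complex.norm_exp]
  simp

theorem ex_deriv (k : ℤ) (h : ℝ) : HasDerivAt (ex k) (-(I * (2 * Real.pi * k : ℝ)) * ex k h) h := by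
  unfold ex
  have h1 : HasDerivAt (fun h : ℝ => ((2 * Real.pi * k * h : ℝ) : ℂ))
      ((2 * Real.pi * k : ℝ) : ℂ) h := by
    have h2 : HasDerivAt (fun h : ℝ => 2 * Real.pi * k * h) (2 * Real.pi * k) h := by
      simpa using (hasDerivAt_id h).const_mul (2 * Real.pi * (k : ℝ))
    exact h2.ofReal_comp
  have h3 := (h1.const_mul I).neg.cexp
  have h4 : -(I * ((2 * Real.pi * k : ℝ) : ℂ)) * Complex.exp (-(I * (2 * Real.pi * k * h : ℝ))) =
      Complex.exp (-(I * (2 * Real.pi * k * h : ℝ))) * -(I * ((2 * Real.pi * k : ℝ) : ℂ)) :=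
    mul_comm _ _
  rw [h4]
  exact h3

theorem ex_one (k : ℤ) : ex k 1 = 1 := by
  unfold ex
  rw [Complex.exp_eq_one_iff]
  refine ⟨-k, ?_⟩
  push_cast
  ring

theorem ex_cont (k : ℤ) : Continuous (ex k) :=
  continuous_iff_continuousAt.2 fun h => (ex_deriv k h).continuousAt

/-- integration by parts -/
theorem parts (u u' : ℝ → ℂ) (hu : ∀ h ∈ Icc (0 : ℝ) 1, HasDerivAt u (u' h) h)
    (hc : ContinuousOn u' (Icc 0 1)) (h0 : u 0 = 0) (h1 : u 1 = 0) (k : ℤ) :
    ∫ h in (0 : ℝ)..1, ex k h * u' h =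
      I * (2 * Real.pi * k : ℝ) * ∫ h in (0 : ℝ)..1, ex k h * u h := by
  have hI : uIcc (0 : ℝ) 1 = Icc 0 1 := uIcc_of_le zero_le_one
  have h2 := intervalIntegral.integral_mul_deriv_eq_deriv_mul (a := (0 : ℝ)) (b := 1)
    (u := ex k) (v := u) (u' := fun h => -(I * (2 * Real.pi * k : ℝ)) * ex k h) (v' := u')
    (fun h _ => ex_deriv k h) (fun h hh => hu h (by rwa [hI] at hh))
    ((continuous_const.mul (ex_cont k)).intervalIntegrable _ _)
    (ContinuousOn.intervalIntegrable (by rwa [hI]))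
  rw [h2, h0, h1, mul_zero, mul_zero, sub_zero, zero_sub, ← intervalIntegral.integral_neg,
    ← intervalIntegral.integral_const_mul]
  refine intervalIntegral.integral_congr fun h _ => ?_
  show -(-(I * (2 * Real.pi * k : ℝ)) * ex k h * u h) = I * (2 * Real.pi * k : ℝ) * (ex k h * u h)
  ring

end FSX

open FSX in
theorem stFS : StFS := by
  intro u u' hu hc h0 h1 h0' h1'
  set c : ℤ → ℂ := fun k => ∫ h in (0 : ℝ)..1, ex k h * u h with hcdef
  set a : ℤ → ℝ := fun k => 2 * Real.pi * |(k : ℝ)| * ‖c k‖ with ha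
  have ha0 : ∀ k, 0 ≤ a k := fun k => by positivity
  show ENNReal.ofReal ‖u' (1 / 2)‖ ≤ ∑' k : ℤ, ENNReal.ofReal (a k)
  by_cases htop : ∑' k : ℤ, ENNReal.ofReal (a k) = ∞
  · rw [htop]
    exact le_top
  have hsum : Summable a := by
    have h2 : ∑' k : ℤ, ((Real.toNNReal (a k) : ℝ≥0) : ℝ≥0∞) ≠ ∞ := htop
    rw [ENNReal.tsum_coe_ne_top_iff_summable] at h2
    have h3 := NNReal.summable_coe.2 h2
    refine h3.congr fun k => ?_
    exact Real.coe_toNNReal _ (ha0 k)
  -- the function on the circle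
  have : Fact ((0 : ℝ) < 1) := ⟨one_pos⟩
  have hcont : Continuous (AddCircle.liftIco (1 : ℝ) 0 u') := by
    apply AddCircle.liftIco_continuous
    · rw [zero_add, h0', h1']
    · rw [zero_add]
      exact hc
  let f : C(AddCircle (1 : ℝ), ℂ) := ⟨AddCircle.liftIco (1 : ℝ) 0 u', hcont⟩
  have hfI : ∀ h ∈ Ico (0 : ℝ) 1, f (h : AddCircle (1 : ℝ)) = u' h := by
    intro h hh
    show AddCircle.liftIco (1 : ℝ) 0 u' h = u' h
    rw [AddCircle.liftIco_coe_apply]
    rwa [zero_add]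
  have hcoef : ∀ k : ℤ, fourierCoeff f k = I * (2 * Real.pi * k : ℝ) * c k := by
    intro k
    rw [fourierCoeff_eq_intervalIntegral f k 0, hcdef]
    show (1 / 1 : ℝ) • ∫ x in (0 : ℝ)..0 + 1, fourier (-k) (x : AddCircle (1 : ℝ)) • f x = _
    rw [← parts u u' hu hc h0 h1 k, zero_add, one_div_one, one_smul]
    refine intervalIntegral.integral_congr_ae ?_
    have hne : ∀ᵐ x : ℝ, x ≠ 1 := by
      rw [ae_iff]
      simp
    filter_upwards [hne] with x hx1 hx
    rw [uIoc_of_le zero_le_one] at hx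
    have hx2 : x ∈ Ico (0 : ℝ) 1 := ⟨hx.1.le, lt_of_le_of_ne hx.2 hx1⟩
    rw [hfI x hx2, fourier_coe_apply, smul_eq_mul]
    unfold ex
    congr 2
    push_cast
    ring
  have hnorm : ∀ k, ‖fourierCoeff f k‖ = a k := by
    intro k
    rw [hcoef k, ha, norm_mul, norm_mul, Complex.norm_I, one_mul, Complex.norm_real,
      Real.norm_eq_abs, abs_mul, abs_of_nonneg (by positivity : (0 : ℝ) ≤ 2 * Real.pi)]
  have hs : Summable (fourierCoeff f) := by
    apply Summable.of_norm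
    exact hsum.congr fun k => (hnorm k).symm
  have h4 := has_pointwise_sum_fourier_series_of_summable hs ((1 / 2 : ℝ) : AddCircle (1 : ℝ))
  rw [hfI (1 / 2) ⟨by norm_num, by norm_num⟩] at h4
  have h5 : ∀ k : ℤ, ‖fourierCoeff f k • fourier k ((1 / 2 : ℝ) : AddCircle (1 : ℝ))‖ = a k := by
    intro k
    rw [norm_smul, hnorm k, fourier_apply, Circle.norm_coe, mul_one]
  have h6 : ‖u' (1 / 2)‖ ≤ ∑' k, a k := by
    rw [← h4.tsum_eq]
    refine (norm_tsum_le_tsum_norm ?_).trans (le_of_eq ?_)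
    · exact hsum.congr fun k => (h5 k).symm
    · exact tsum_congr h5
  rw [← ENNReal.ofReal_tsum_of_nonneg ha0 hsum]
  exact ENNReal.ofReal_le_ofReal h6

end Pool.Agent.Work.MP_055a27_an.Sg
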