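import Pool.Agent.Work.MP_055a27_an.Sg.Stmts
import Pool.Agent.Work.MP_055a27_an.Bd.B06

/-!
# Item Gen: the derivative of the translates
-/

set_option autoImplicit false

open MeasureTheory Set Filter Topology Complex Metric
open scoped ENNReal NNReal

namespace Pool.Agent.Work.MP_055a27_an.Sg

open Crit (lg NTc Nice NI)
open Cr3 (Wt Sh)
open Fn (StarC ShK Ex Vp Vs Uav lgm NV)

namespace GenX

/-! ### Maximal functions -/

lemma le_NTc (F : ℂ → ℂ) {b x z y : ℝ} (hy : 0 < y) (h : |x - z| ≤ b * y) :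
    ENNReal.ofReal ‖F (z + y * I)‖ ≤ NTc F b x :=
  le_iSup_of_le z (le_iSup_of_le y (le_iSup_of_le ⟨hy, h⟩ le_rfl))

lemma NTc_le {F : ℂ → ℂ} {b x : ℝ} {B : ℝ≥0∞}
    (h : ∀ z y : ℝ, 0 < y → |x - z| ≤ b * y → ENNReal.ofReal ‖F (z + y * I)‖ ≤ B) :
    NTc F b x ≤ B :=
  iSup_le fun z => iSup_le fun y => iSup_le fun hzy => h z y hzy.1 hzy.2

lemma im_pos {z y : ℝ} (hy : 0 < y) : 0 < ((z : ℂ) + y * I).im := by simpa using hy

lemma NI_le {U : ℝ → ℝ} {F G : ℂ → ℂ} {b p : ℝ} (hp : 0 < p) {a : ℝ≥0∞} (ha : a ≠ ∞)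
    (h : ∀ x, NTc G b x ≤ a * NTc F b x) : NI U G b p ≤ a ^ p * NI U F b p := by
  unfold NI
  rw [← lintegral_const_mul' _ _ (ENNReal.rpow_ne_top_of_nonneg hp.le ha)]
  refine lintegral_mono fun x => ?_
  rw [← mul_assoc, ← ENNReal.mul_rpow_of_nonneg _ _ hp.le]
  exact mul_le_mul_left (ENNReal.rpow_le_rpow (h x) hp.le) _

lemma NTc_of_norm {F G : ℂ → ℂ} {b : ℝ} {a : ℝ} (ha : 0 ≤ a)
    (h : ∀ w : ℂ, 0 < w.im → ‖G w‖ ≤ a * ‖F w‖) (x : ℝ) :
    NTc G b x ≤ ENNReal.ofReal a * NTc F b x := by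
  refine NTc_le fun z y hy hz => ?_
  refine (ENNReal.ofReal_le_ofReal (h _ (im_pos hy))).trans ?_
  rw [ENNReal.ofReal_mul ha]
  exact mul_le_mul_right (le_NTc F hy hz) _

/-- one step of the iteration -/
lemma step {U : ℝ → ℝ} {b p c t θ : ℝ} {e : ℂ} {G G1 : ℂ → ℂ} (hp : 0 < p) (hc : 0 < c)
    (ht : 0 < t)
    (hres : ENNReal.ofReal ((c * |θ / t|) ^ p) * NI U G b p ≤
      NI U (fun w => e * deriv G w - I * (θ / t : ℝ) * G w) b p)
    (heq : ∀ w : ℂ, 0 ≤ w.im → t * e * deriv G w - I * θ * G w = -G1 w) :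
    ENNReal.ofReal ((c * |θ|) ^ p) * NI U G b p ≤ NI U G1 b p := by
  have ht' : (t : ℂ) ≠ 0 := by exact_mod_cast ht.ne'
  have h1 : NI U (fun w => e * deriv G w - I * (θ / t : ℝ) * G w) b p ≤
      (ENNReal.ofReal (1 / t)) ^ p * NI U G1 b p := by
    refine NI_le hp ENNReal.ofReal_ne_top fun x => NTc_of_norm (by positivity) (fun w hw => ?_) x
    have h2 := heq w hw.le
    have h3 : e * deriv G w - I * (θ / t : ℝ) * G w = -G1 w / t := by
      rw [← h2]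
      push_cast
      field_simp
    rw [h3, norm_div, norm_neg, Complex.norm_real, Real.norm_eq_abs, abs_of_pos ht]
    exact le_of_eq (by ring)
  have h2 := hres.trans h1
  have h3 : ENNReal.ofReal ((c * |θ|) ^ p) = ENNReal.ofReal (t ^ p) *
      ENNReal.ofReal ((c * |θ / t|) ^ p) := by
    rw [← ENNReal.ofReal_mul (by positivity), ← Real.mul_rpow ht.le (by positivity)]
    congr 2
    rw [abs_div, abs_of_pos ht]
    field_simp
  have h4 : ENNReal.ofReal (t ^ p) * (ENNReal.ofReal (1 / t)) ^ p = 1 := by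
    rw [ENNReal.ofReal_rpow_of_pos (by positivity), ← ENNReal.ofReal_mul (by positivity),
      ← Real.mul_rpow ht.le (by positivity), mul_one_div_cancel ht.ne', Real.one_rpow,
      ENNReal.ofReal_one]
  calc ENNReal.ofReal ((c * |θ|) ^ p) * NI U G b p
      = ENNReal.ofReal (t ^ p) * (ENNReal.ofReal ((c * |θ / t|) ^ p) * NI U G b p) := by
        rw [h3, mul_assoc]
    _ ≤ ENNReal.ofReal (t ^ p) * ((ENNReal.ofReal (1 / t)) ^ p * NI U G1 b p) :=
        mul_le_mul_right h2 _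
    _ = NI U G1 b p := by rw [← mul_assoc, h4, one_mul]

/-! ### The cut-off -/

/-- the polynomial -/
noncomputable def Q (m : ℕ) : Polynomial ℝ :=
  (Polynomial.C 4 * (Polynomial.X * (1 - Polynomial.X))) ^ m

/-- the derivatives -/
noncomputable def chi (m j : ℕ) (h : ℝ) : ℝ :=
  ((Polynomial.derivative)^[j] (Q m)).eval h

lemma chi_cont (m j : ℕ) : ContDiff ℝ 1 (chi m j) := by
  have h := Polynomial.contDiff_aeval (𝕜 := ℝ) ((Polynomial.derivative)^[j] (Q m)) 1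
  simp only [Polynomial.coe_aeval_eq_eval] at h
  exact h

lemma chi_deriv (m j : ℕ) : deriv (chi m j) = chi m (j + 1) := by
  funext h
  unfold chi
  rw [Polynomial.deriv, Function.iterate_succ_apply']

lemma chi_hasDeriv (m j : ℕ) (h : ℝ) : HasDerivAt (chi m j) (chi m (j + 1) h) h := by
  unfold chi
  rw [Function.iterate_succ_apply']
  exact Polynomial.hasDerivAt _ h

lemma chi_zero {m j : ℕ} (hj : j < m) : chi m j 0 = 0 := by
  unfold chi
  have h1 : (Polynomial.X : Polynomial ℝ) ^ m ∣ Q m :=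
    pow_dvd_pow_of_dvd ⟨Polynomial.C 4 * (1 - Polynomial.X), by ring⟩ m
  obtain ⟨R, hR⟩ := Polynomial.pow_sub_dvd_iterate_derivative_of_pow_dvd j h1
  rw [hR, Polynomial.eval_mul, Polynomial.eval_pow, Polynomial.eval_X,
    zero_pow (by omega), zero_mul]

lemma chi_one {m j : ℕ} (hj : j < m) : chi m j 1 = 0 := by
  unfold chi
  have h1 : (1 - Polynomial.X : Polynomial ℝ) ^ m ∣ Q m :=
    pow_dvd_pow_of_dvd ⟨Polynomial.C 4 * Polynomial.X, by ring⟩ m
  obtain ⟨R, hR⟩ := Polynomial.pow_sub_dvd_iterate_derivative_of_pow_dvd j h1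
  rw [hR, Polynomial.eval_mul, Polynomial.eval_pow, Polynomial.eval_sub, Polynomial.eval_one,
    Polynomial.eval_X, sub_self, zero_pow (by omega), zero_mul]

lemma chi_half (m : ℕ) : chi m 0 (1 / 2) = 1 := by
  unfold chi Q
  simp only [Function.iterate_zero, id, Polynomial.eval_pow, Polynomial.eval_mul,
    Polynomial.eval_C, Polynomial.eval_X, Polynomial.eval_sub, Polynomial.eval_one]
  norm_num

lemma chi_half' (m : ℕ) : chi m 1 (1 / 2) = 0 := by
  unfold chi Q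
  simp only [Function.iterate_one, Polynomial.derivative_pow, Polynomial.derivative_mul,
    Polynomial.derivative_C, Polynomial.derivative_X, Polynomial.derivative_sub,
    Polynomial.derivative_one, Polynomial.eval_mul, Polynomial.eval_add, Polynomial.eval_pow,
    Polynomial.eval_C, Polynomial.eval_X, Polynomial.eval_sub, Polynomial.eval_one,
    Polynomial.eval_zero]
  norm_num

lemma chi_bdd (m j : ℕ) : ∃ A : ℝ, 0 ≤ A ∧ ∀ h ∈ Icc (0 : ℝ) 1, |chi m j h| ≤ A := by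
  obtain ⟨A, hA⟩ := isCompact_Icc.exists_bound_of_continuousOn
    (chi_cont m j).continuous.continuousOn (s := Icc (0 : ℝ) 1)
  exact ⟨max A 0, le_max_right _ _, fun h hh => (hA h hh).trans (le_max_left _ _)⟩

/-! ### Series -/

lemma sum_sq (a : ℝ) (ha : 0 ≤ a) : ∑' k : ℤ, ENNReal.ofReal (a * (1 / (k : ℝ) ^ 2)) ≠ ∞ := by
  have h1 : Summable fun k : ℤ => a * (1 / (k : ℝ) ^ 2) :=
    (Real.summable_one_div_int_pow.2 (by norm_num)).mul_left a
  rw [← ENNReal.ofReal_tsum_of_nonneg (fun k => by positivity) h1]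
  exact ENNReal.ofReal_ne_top

lemma sup_bound (N : ℤ → ℝ≥0∞) : ∑' k : ℤ, ENNReal.ofReal (Real.pi * |(k : ℝ)|) * N k ≤
    (∑' k : ℤ, ENNReal.ofReal (Real.pi * (1 / (k : ℝ) ^ 2))) *
      ⨆ k : ℤ, ENNReal.ofReal (|(k : ℝ)| ^ 3) * N k := by
  rw [← ENNReal.tsum_mul_right]
  refine ENNReal.tsum_le_tsum fun k => ?_
  by_cases hk : k = 0
  · rw [hk]
    simp
  · have hk' : (k : ℝ) ≠ 0 := by exact_mod_cast hk
    have h1 : Real.pi * |(k : ℝ)| = Real.pi * (1 / (k : ℝ) ^ 2) * |(k : ℝ)| ^ 3 := by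
      rw [← sq_abs (k : ℝ)]
      have : |(k : ℝ)| ≠ 0 := abs_ne_zero.2 hk'
      field_simp
    rw [h1, ENNReal.ofReal_mul (by positivity), mul_assoc]
    exact mul_le_mul_right (le_iSup (fun k : ℤ => ENNReal.ofReal (|(k : ℝ)| ^ 3) * N k) k) _

lemma sup_rpow (a : ℤ → ℝ≥0∞) {p : ℝ} (hp : 0 < p) : (⨆ k, a k) ^ p ≤ ∑' k, (a k) ^ p := by
  have h := (ENNReal.orderIsoRpow p hp).map_iSup a
  have h2 : (⨆ k, a k) ^ p = ⨆ k, (a k) ^ p := h
  rw [h2]
  exact iSup_le fun k => ENNReal.le_tsum k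

lemma term_le {c p x : ℝ} {m : ℕ} (hc : 0 < c) (hm : 2 ≤ ((m : ℝ) - 3) * p)
    (hx : 1 ≤ x) : (x ^ 3) ^ p * (((c * (2 * Real.pi * x)) ^ p) ^ m)⁻¹ ≤
      (((c * (2 * Real.pi)) ^ p) ^ m)⁻¹ * (1 / x ^ 2) := by
  have hx0 : 0 < x := by linarith
  have hpi := Real.pi_pos
  have h1 : (c * (2 * Real.pi * x)) ^ p = (c * (2 * Real.pi)) ^ p * x ^ p := by
    rw [← mul_assoc, Real.mul_rpow (by positivity) hx0.le]
  have h2 : (x ^ 3) ^ p = x ^ (3 * p) := by
    rw [← Real.rpow_natCast x 3, ← Real.rpow_mul hx0.le]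
    norm_num
  have h3 : (x ^ p) ^ m = x ^ (p * m) := by
    rw [← Real.rpow_natCast, ← Real.rpow_mul hx0.le]
  rw [h1, mul_pow, mul_inv, h2, h3]
  have h4 : x ^ (3 * p) * (x ^ (p * m))⁻¹ ≤ 1 / x ^ 2 := by
    rw [← Real.rpow_neg hx0.le, ← Real.rpow_add hx0]
    have h5 : (1 : ℝ) / x ^ 2 = x ^ (-2 : ℝ) := by
      rw [Real.rpow_neg hx0.le, Real.rpow_two, one_div]
    rw [h5]
    exact Real.rpow_le_rpow_of_exponent_le hx (by linarith)
  calc x ^ (3 * p) * ((((c * (2 * Real.pi)) ^ p) ^ m)⁻¹ * (x ^ (p * m))⁻¹)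
      = (((c * (2 * Real.pi)) ^ p) ^ m)⁻¹ * (x ^ (3 * p) * (x ^ (p * m))⁻¹) := by ring
    _ ≤ _ := mul_le_mul_of_nonneg_left h4 (by positivity)

/-- the constant is finite -/
lemma const_fin {c p : ℝ} {m : ℕ} (hc : 0 < c) (hp : 0 < p) (hm : 2 ≤ ((m : ℝ) - 3) * p) :
    ∑' k : ℤ, (ENNReal.ofReal (|(k : ℝ)| ^ 3)) ^ p *
      ((ENNReal.ofReal ((c * |2 * Real.pi * (k : ℝ)|) ^ p)) ^ m)⁻¹ ≠ ∞ := by
  have hpi := Real.pi_pos
  refine ne_top_of_le_ne_top (sum_sq ((((c * (2 * Real.pi)) ^ p) ^ m)⁻¹) (by positivity)) ?_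
  refine ENNReal.tsum_le_tsum fun k => ?_
  by_cases hk : k = 0
  · rw [hk]
    simp [hp]
  · have hk' : (k : ℝ) ≠ 0 := by exact_mod_cast hk
    have hx : 1 ≤ |(k : ℝ)| := by
      rw [← Int.cast_abs]
      exact_mod_cast Int.one_le_abs hk
    have hx0 : 0 < |(k : ℝ)| := by linarith
    have h1 : |2 * Real.pi * (k : ℝ)| = 2 * Real.pi * |(k : ℝ)| := by
      rw [abs_mul, abs_of_pos (by positivity)]
    rw [h1, ENNReal.ofReal_rpow_of_pos (by positivity), ← ENNReal.ofReal_pow (by positivity),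
      ← ENNReal.ofReal_inv_of_pos (by positivity), ← ENNReal.ofReal_mul (by positivity),
      ← sq_abs (k : ℝ)]
    exact ENNReal.ofReal_le_ofReal (term_le hc hm hx)

/-! ### The pointwise estimate -/

lemma pointwise (hAnC : StAnC) (hFS : StFS) {F : ℂ → ℂ} (hF : An F) {e w : ℂ} {t : ℝ} {m : ℕ}
    (ht : 0 < t) (he : 0 < e.im) (hw : 0 < w.im) (hm : 5 ≤ m) :
    ENNReal.ofReal ‖t * e * deriv F (w + t * e)‖ ≤
      ∑' k : ℤ, ENNReal.ofReal (Real.pi * |(k : ℝ)|) *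
        ENNReal.ofReal ‖PF (chi m 0) (2 * Real.pi * k) (2 * t) e F w‖ := by
  obtain ⟨-, hF', -⟩ := hAnC F hF
  obtain ⟨δ, M, hδ, hM⟩ := id hF
  obtain ⟨δ', M', hδ', hM'⟩ := hF'
  have him : ∀ h : ℝ, 0 ≤ h → 0 < (w + (2 * t * h : ℝ) * e).im := by
    intro h hh
    rw [add_im, im_ofReal_mul]
    have : 0 ≤ 2 * t * h * e.im := by positivity
    linarith
  have hd : ∀ h : ℝ, 0 ≤ h → HasDerivAt (fun h : ℝ => F (w + (2 * t * h : ℝ) * e))
      (deriv F (w + (2 * t * h : ℝ) * e) * (2 * t * e)) h := by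
    intro h hh
    have h1 : DifferentiableAt ℂ F (w + (2 * t * h : ℝ) * e) :=
      (hM _ (by linarith [him h hh])).1
    have h2 : HasDerivAt (fun h : ℝ => w + (2 * t * h : ℝ) * e) (2 * t * e) h := by
      have h3 : HasDerivAt (fun h : ℝ => ((2 * t * h : ℝ) : ℂ)) (2 * t : ℂ) h := by
        have h4 : HasDerivAt (fun h : ℝ => 2 * t * h) (2 * t) h := by
          simpa using (hasDerivAt_id h).const_mul (2 * t)
        have h5 := h4.ofReal_comp
        simpa using h5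
      have h6 := (h3.mul_const e).const_add w
      exact h6
    exact HasDerivAt.comp h h1.hasDerivAt h2
  have hc : ∀ h : ℝ, HasDerivAt (fun h : ℝ => ((chi m 0 h : ℝ) : ℂ)) ((chi m 1 h : ℝ) : ℂ) h :=
    fun h => (chi_hasDeriv m 0 h).ofReal_comp
  have hmain := hFS (fun h => ((chi m 0 h : ℝ) : ℂ) * F (w + (2 * t * h : ℝ) * e))
    (fun h => ((chi m 1 h : ℝ) : ℂ) * F (w + (2 * t * h : ℝ) * e) +
      ((chi m 0 h : ℝ) : ℂ) * (deriv F (w + (2 * t * h : ℝ) * e) * (2 * t * e)))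
    (fun h hh => (hc h).mul (hd h hh.1)) ?_ ?_ ?_ ?_ ?_
  · have h1 : t * e * deriv F (w + t * e) = (1 / 2 : ℂ) *
        (((chi m 1 (1 / 2) : ℝ) : ℂ) * F (w + (2 * t * (1 / 2 : ℝ) : ℝ) * e) +
        ((chi m 0 (1 / 2) : ℝ) : ℂ) *
          (deriv F (w + (2 * t * (1 / 2 : ℝ) : ℝ) * e) * (2 * t * e))) := by
      have h2 : (2 * t * (1 / 2 : ℝ) : ℝ) = t := by ring
      rw [h2, chi_half, chi_half', ofReal_zero, ofReal_one]
      ring
    rw [h1, norm_mul, ENNReal.ofReal_mul (norm_nonneg _)]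
    refine (mul_le_mul_right hmain _).trans (le_of_eq ?_)
    rw [← ENNReal.tsum_mul_left]
    refine tsum_congr fun k => ?_
    rw [← ENNReal.ofReal_mul (norm_nonneg _), ← ENNReal.ofReal_mul (by positivity)]
    congr 1
    have h3 : ∫ h in (0 : ℝ)..1, Complex.exp (-(I * (2 * Real.pi * k * h : ℝ))) *
        (((chi m 0 h : ℝ) : ℂ) * F (w + (2 * t * h : ℝ) * e)) =
        PF (chi m 0) (2 * Real.pi * k) (2 * t) e F w := by
      unfold PF
      refine intervalIntegral.integral_congr fun h _ => ?_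
      show Complex.exp (-(I * (2 * Real.pi * k * h : ℝ))) *
        (((chi m 0 h : ℝ) : ℂ) * F (w + (2 * t * h : ℝ) * e)) =
        ((chi m 0 h : ℝ) : ℂ) * Complex.exp (-(I * (2 * Real.pi * k * h : ℝ))) *
          F (w + (2 * t * h : ℝ) * e)
      ring
    rw [h3]
    have h4 : ‖(1 / 2 : ℂ)‖ = 1 / 2 := by norm_num
    rw [h4]
    ring
  · have hcF : ContinuousOn (fun h : ℝ => F (w + (2 * t * h : ℝ) * e)) (Icc 0 1) := fun h hh =>
      (hd h hh.1).continuousAt.continuousWithinAt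
    have hcF' : ContinuousOn (fun h : ℝ => deriv F (w + (2 * t * h : ℝ) * e)) (Icc 0 1) := by
      intro h hh
      have h1 : ContinuousAt (deriv F) (w + (2 * t * h : ℝ) * e) :=
        (hM' _ (by linarith [him h hh.1])).1.continuousAt
      have h2 : Continuous fun h : ℝ => w + ((2 * t * h : ℝ) : ℂ) * e := by fun_prop
      exact (ContinuousAt.comp (f := fun h : ℝ => w + ((2 * t * h : ℝ) : ℂ) * e) h1
        h2.continuousAt).continuousWithinAt
    have hc0 : Continuous fun h : ℝ => ((chi m 0 h : ℝ) : ℂ) :=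
      continuous_ofReal.comp (chi_cont m 0).continuous
    have hc1 : Continuous fun h : ℝ => ((chi m 1 h : ℝ) : ℂ) :=
      continuous_ofReal.comp (chi_cont m 1).continuous
    exact (hc1.continuousOn.mul hcF).add (hc0.continuousOn.mul
      (hcF'.mul continuousOn_const))
  · simp [chi_zero (show 0 < m by omega)]
  · simp [chi_one (show 0 < m by omega)]
  · simp [chi_zero (show 0 < m by omega), chi_zero (show 1 < m by omega)]
  · simp [chi_one (show 0 < m by omega), chi_one (show 1 < m by omega)]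

/-! ### The components -/

/-- the norm of a component -/
lemma comp_le (hPFb : StPFb) {U : ℝ → ℝ} {b p c : ℝ} (hp : 0 < p) (hc : 0 < c) {e : ℂ}
    (he : 0 < e.im) (heb : |e.re| ≤ b * e.im)
    (hres : ∀ (θ : ℝ) (G : ℂ → ℂ), An G → NI U G b p ≠ ∞ →
      ENNReal.ofReal ((c * |θ|) ^ p) * NI U G b p ≤
        NI U (fun w => e * deriv G w - I * θ * G w) b p)
    {F : ℂ → ℂ} (hF : An F) (hfin : NI U F b p ≠ ∞) {t : ℝ} (ht : 0 < t) (θ : ℝ) (m : ℕ) {A : ℝ}
    (hA : ∀ h ∈ Icc (0 : ℝ) 1, |chi m m h| ≤ A) :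
    (ENNReal.ofReal ((c * |θ|) ^ p)) ^ m * NI U (PF (chi m 0) θ t e F) b p ≤
      (ENNReal.ofReal A) ^ p * NI U F b p := by
  have hb : ∀ (j : ℕ) (M : ℝ), (∀ h ∈ Icc (0 : ℝ) 1, |chi m j h| ≤ M) →
      NI U (PF (chi m j) θ t e F) b p ≤ (ENNReal.ofReal M) ^ p * NI U F b p := fun j M hM =>
    NI_le hp ENNReal.ofReal_ne_top fun x =>
      (hPFb F e t θ (chi m j) hF he ht (chi_cont m j)).2.2 b x M heb hM
  have hf : ∀ j : ℕ, NI U (PF (chi m j) θ t e F) b p ≠ ∞ := by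
    intro j
    obtain ⟨M, -, hM⟩ := chi_bdd m j
    exact ne_top_of_le_ne_top (ENNReal.mul_ne_top
      (ENNReal.rpow_ne_top_of_nonneg hp.le ENNReal.ofReal_ne_top) hfin) (hb j M hM)
  have hit : ∀ j : ℕ, j ≤ m → (ENNReal.ofReal ((c * |θ|) ^ p)) ^ j *
      NI U (PF (chi m 0) θ t e F) b p ≤ NI U (PF (chi m j) θ t e F) b p := by
    intro j
    induction j with
    | zero =>
      intro _
      rw [pow_zero, one_mul]
    | succ j ih =>
      intro hj
      obtain ⟨h1, h2, -⟩ := hPFb F e t θ (chi m j) hF he ht (chi_cont m j)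
      have h3 := h2 (chi_zero (by omega)) (chi_one (by omega))
      rw [chi_deriv] at h3
      have h4 := step (U := U) (b := b) hp hc ht (hres (θ / t) _ h1 (hf j)) h3
      calc (ENNReal.ofReal ((c * |θ|) ^ p)) ^ (j + 1) * NI U (PF (chi m 0) θ t e F) b p
          = ENNReal.ofReal ((c * |θ|) ^ p) * ((ENNReal.ofReal ((c * |θ|) ^ p)) ^ j *
            NI U (PF (chi m 0) θ t e F) b p) := by rw [pow_succ]; ring
        _ ≤ ENNReal.ofReal ((c * |θ|) ^ p) * NI U (PF (chi m j) θ t e F) b p :=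
          mul_le_mul_right (ih (by omega)) _
        _ ≤ _ := h4
  exact (hit m le_rfl).trans (hb m A hA)

/-- the main estimate -/
lemma main (hAnC : StAnC) (hPFb : StPFb) (hFS : StFS) {U : ℝ → ℝ} (hU : IsWeight U) {b p c : ℝ}
    (hb : 0 < b) (hp : 0 < p) (hc : 0 < c) {e : ℂ}
    (he : 0 < e.im) (heb : |e.re| ≤ b * e.im)
    (hres : ∀ (θ : ℝ) (G : ℂ → ℂ), An G → NI U G b p ≠ ∞ →
      ENNReal.ofReal ((c * |θ|) ^ p) * NI U G b p ≤
        NI U (fun w => e * deriv G w - I * θ * G w) b p)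
    {F : ℂ → ℂ} (hF : An F) (hfin : NI U F b p ≠ ∞) {t : ℝ} (ht : 0 < t) {m : ℕ} (hm : 5 ≤ m)
    {A : ℝ} (hA : ∀ h ∈ Icc (0 : ℝ) 1, |chi m m h| ≤ A) :
    NI U (fun w => t * e * deriv F (w + t * e)) b p ≤
      (∑' k : ℤ, ENNReal.ofReal (Real.pi * (1 / (k : ℝ) ^ 2))) ^ p *
        ((∑' k : ℤ, (ENNReal.ofReal (|(k : ℝ)| ^ 3)) ^ p *
          ((ENNReal.ofReal ((c * |2 * Real.pi * (k : ℝ)|) ^ p)) ^ m)⁻¹) *
          (ENNReal.ofReal A) ^ p) * NI U F b p := by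
  have h2t : 0 < 2 * t := by linarith
  obtain ⟨S, hS⟩ : ∃ S, S = ∑' k : ℤ, ENNReal.ofReal (Real.pi * (1 / (k : ℝ) ^ 2)) := ⟨_, rfl⟩
  have hSf : S ≠ ∞ := by
    rw [hS]
    exact sum_sq _ Real.pi_pos.le
  rw [← hS]
  let G : ℤ → ℂ → ℂ := fun k => PF (chi m 0) (2 * Real.pi * k) (2 * t) e F
  have hG : ∀ k, An (G k) := fun k =>
    (hPFb F e (2 * t) (2 * Real.pi * k) (chi m 0) hF he h2t (chi_cont m 0)).1
  have h1 : ∀ x, NTc (fun w => t * e * deriv F (w + t * e)) b x ≤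
      S * ⨆ k : ℤ, ENNReal.ofReal (|(k : ℝ)| ^ 3) * NTc (G k) b x := by
    intro x
    rw [hS]
    refine le_trans ?_ (sup_bound fun k => NTc (G k) b x)
    refine NTc_le fun z y hy hz => ?_
    refine (pointwise hAnC hFS hF ht he (im_pos hy) hm).trans ?_
    exact ENNReal.tsum_le_tsum fun k => mul_le_mul_right (le_NTc (G k) hy hz) _
  have h2 : NI U (fun w => t * e * deriv F (w + t * e)) b p ≤
      ∫⁻ x, S ^ p * ∑' k : ℤ, (ENNReal.ofReal (|(k : ℝ)| ^ 3)) ^ p * (NTc (G k) b x) ^ p *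
        ENNReal.ofReal (U x) := by
    refine lintegral_mono fun x => ?_
    rw [ENNReal.tsum_mul_right, ← mul_assoc]
    refine mul_le_mul_left ?_ _
    refine (ENNReal.rpow_le_rpow (h1 x) hp.le).trans ?_
    rw [ENNReal.mul_rpow_of_nonneg _ _ hp.le]
    refine mul_le_mul_right ?_ _
    refine (sup_rpow _ hp).trans (le_of_eq (tsum_congr fun k => ?_))
    rw [ENNReal.mul_rpow_of_nonneg _ _ hp.le]
  refine h2.trans ?_
  rw [lintegral_const_mul' _ _ (ENNReal.rpow_ne_top_of_nonneg hp.le hSf), mul_assoc]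
  refine mul_le_mul_right ?_ _
  have hmeas : ∀ k : ℤ, Measurable (NTc (G k) b) := fun k =>
    Crit.stNM (G k) b (hAnC (G k) (hG k)).1 hb.le
  have hae : ∀ k : ℤ, AEMeasurable (fun x => (ENNReal.ofReal (|(k : ℝ)| ^ 3)) ^ p *
      (NTc (G k) b x) ^ p * ENNReal.ofReal (U x)) volume := fun k =>
    (((hmeas k).pow_const p).const_mul _).aemeasurable.mul (weight_ofReal_aemeas hU)
  rw [lintegral_tsum hae, ← ENNReal.tsum_mul_right, ← ENNReal.tsum_mul_right]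
  refine ENNReal.tsum_le_tsum fun k => ?_
  have h3 : ∫⁻ x, (ENNReal.ofReal (|(k : ℝ)| ^ 3)) ^ p * (NTc (G k) b x) ^ p *
      ENNReal.ofReal (U x) = (ENNReal.ofReal (|(k : ℝ)| ^ 3)) ^ p * NI U (G k) b p := by
    unfold NI
    rw [← lintegral_const_mul' _ _ (ENNReal.rpow_ne_top_of_nonneg hp.le ENNReal.ofReal_ne_top)]
    exact lintegral_congr fun x => by rw [mul_assoc]
  rw [h3]
  by_cases hk : k = 0
  · rw [hk]
    simp [hp]
  · have hk' : (k : ℝ) ≠ 0 := by exact_mod_cast hk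
    have h4 := comp_le hPFb hp hc he heb hres hF hfin h2t (2 * Real.pi * k) m hA
    have hpos : 0 < c * |2 * Real.pi * (k : ℝ)| := by
      have := Real.pi_pos
      have : 0 < |2 * Real.pi * (k : ℝ)| := abs_pos.2 (by positivity)
      positivity
    obtain ⟨q, hq⟩ : ∃ q, q = (ENNReal.ofReal ((c * |2 * Real.pi * (k : ℝ)|) ^ p)) ^ m := ⟨_, rfl⟩
    have hq0 : q ≠ 0 := by
      rw [hq]
      exact pow_ne_zero _ (ENNReal.ofReal_pos.2 (Real.rpow_pos_of_pos hpos _)).ne'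
    have hqt : q ≠ ∞ := by
      rw [hq]
      exact ENNReal.pow_ne_top ENNReal.ofReal_ne_top
    rw [← hq] at h4 ⊢
    have h5 : NI U (G k) b p ≤ q⁻¹ * ((ENNReal.ofReal A) ^ p * NI U F b p) := by
      calc NI U (G k) b p = q⁻¹ * (q * NI U (G k) b p) := by
            rw [← mul_assoc, ENNReal.inv_mul_cancel hq0 hqt, one_mul]
        _ ≤ _ := mul_le_mul_right h4 _
    calc (ENNReal.ofReal (|(k : ℝ)| ^ 3)) ^ p * NI U (G k) b p
        ≤ (ENNReal.ofReal (|(k : ℝ)| ^ 3)) ^ p *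
          (q⁻¹ * ((ENNReal.ofReal A) ^ p * NI U F b p)) := mul_le_mul_right h5 _
      _ = _ := by ring

end GenX

open GenX in
theorem stGen (hAnC : StAnC) (hRes : StRes) (hPFb : StPFb) (hFS : StFS) : StGen := by
  intro C0 b p hb hp
  obtain ⟨c, hc, hres⟩ := hRes C0 b p hb hp
  obtain ⟨m, hm⟩ := exists_nat_ge (2 / p + 5)
  have hm5 : 5 ≤ m := by
    have h1 : (5 : ℝ) ≤ m := by
      have : 0 < 2 / p := by positivity
      linarith
    exact_mod_cast h1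
  have hm2 : 2 ≤ ((m : ℝ) - 3) * p := by
    have h1 : 2 / p ≤ (m : ℝ) - 3 := by linarith
    rwa [div_le_iff₀ hp] at h1
  obtain ⟨A, -, hA⟩ := chi_bdd m m
  obtain ⟨K, hK⟩ : ∃ K, K = (∑' k : ℤ, ENNReal.ofReal (Real.pi * (1 / (k : ℝ) ^ 2))) ^ p *
        ((∑' k : ℤ, (ENNReal.ofReal (|(k : ℝ)| ^ 3)) ^ p *
          ((ENNReal.ofReal ((c * |2 * Real.pi * (k : ℝ)|) ^ p)) ^ m)⁻¹) *
          (ENNReal.ofReal A) ^ p) := ⟨_, rfl⟩
  have hKf : K ≠ ∞ := by
    rw [hK]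
    exact ENNReal.mul_ne_top (ENNReal.rpow_ne_top_of_nonneg hp.le (sum_sq _ Real.pi_pos.le))
      (ENNReal.mul_ne_top (const_fin hc hp hm2)
        (ENNReal.rpow_ne_top_of_nonneg hp.le ENNReal.ofReal_ne_top))
  refine ⟨max 1 (K.toReal ^ (1 / p)), le_max_left _ _, ?_⟩
  intro U hU hstar σ t F hσ ht hF hfin
  have he : (ed b σ).im = 1 := by
    unfold ed
    simp
  have here : (ed b σ).re = σ * b := by
    unfold ed
    simp
  have h1 := main hAnC hPFb hFS hU hb hp hc (e := ed b σ) (by rw [he]; exact one_pos)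
    (by rw [he, here, abs_mul, hσ, abs_of_pos hb]; linarith)
    (fun θ G hG hGf => hres U hU hstar σ θ G hσ hG hGf) hF hfin ht hm5 hA
  rw [← hK] at h1
  refine h1.trans (mul_le_mul_left ?_ _)
  refine (ENNReal.ofReal_toReal hKf).symm.le.trans (ENNReal.ofReal_le_ofReal ?_)
  have h2 : K.toReal = (K.toReal ^ (1 / p)) ^ p := by
    rw [← Real.rpow_mul ENNReal.toReal_nonneg, one_div_mul_cancel hp.ne', Real.rpow_one]
  calc K.toReal = (K.toReal ^ (1 / p)) ^ p := h2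
    _ ≤ (max 1 (K.toReal ^ (1 / p))) ^ p :=
      Real.rpow_le_rpow (by positivity) (le_max_right _ _) hp.le

end Pool.Agent.Work.MP_055a27_an.Sg
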