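import Pool.Agent.Work.MP_055a27_an.Cr3.Main
import Pool.Agent.Work.MP_055a27_an.Bd.B05
import Pool.Agent.Work.MP_055a27_an.Bd.B12
import Pool.Agent.Work.MP_055a27_an.Fn.RS
import Pool.Agent.Work.MP_055a27_an.Fn.HM
import Pool.Agent.Work.MP_055a27_an.Fn.Cost
import Pool.Agent.Work.MP_055a27_an.Fn.Cov
import Pool.Agent.Work.MP_055a27_an.Fn.Core
import Pool.Agent.Work.MP_055a27_an.Fn.LimT
import Pool.Agent.Work.MP_055a27_an.Fn.LimTh
import Pool.Agent.Work.MP_055a27_an.Bd.B13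
import Pool.Agent.Work.MP_055a27_an.Fn.Rp
import Pool.Agent.Work.MP_055a27_an.Fn.Zs
import Pool.Agent.Work.MP_055a27_an.Bd.B14
import Pool.Agent.Work.MP_055a27_an.Fn.E1
import Pool.Agent.Work.MP_055a27_an.Fn.E2
import Pool.Agent.Work.MP_055a27_an.Sg.FS
import Pool.Agent.Work.MP_055a27_an.Sg.Gen
import Pool.Agent.Work.MP_055a27_an.Sg.CostB

/-!
# Assembly: the characterization for `b ≤ lam`
-/

set_option autoImplicit false

open MeasureTheory Set Filter Topology Complex Metric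
open scoped ENNReal NNReal

namespace Pool.Agent.Work.MP_055a27_an.Sg

open Crit (lg)
open Cr3 (Wt Sh)
open Fn (NV NVd)

theorem fHch : Fn.StHch := Fn.stHch Cr3.stHar
theorem fClA : Fn.StClA := Fn.stClA fHch Fn.stMx Fn.stPd
theorem fHM0 : Fn.StHM0 := Fn.stHM0 fClA Fn.stLb
theorem fHM : Fn.StHM := Fn.stHM fClA Fn.stRS fHM0
theorem fCore : Fn.StCore := Fn.stCore fHch fHM Fn.stOsc Fn.stCost
theorem fImp : Fn.StImp := Fn.stImp fHch Fn.stCov fCore
theorem fAp : Fn.StAp := Fn.stAp Fn.stNVc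

theorem fRes : StRes := stRes stAnC stSFb stPt
theorem fPFb : StPFb := stPFb stAnC
theorem fGen : StGen := stGen stAnC fRes fPFb stFS
theorem fTay : StTay := stTay stAnC fGen
theorem fGain : StGain := stGain stAnC fTay
theorem fGainK : StGainK := stGainK stAnC fGain stCostB
theorem fUnifB : StUnifB := stUnifB fImp fGainK
theorem fNecB : StNecB := stNecB fUnifB Fn.stTr fAp Fn.stLimN Fn.stLimT Fn.stLimTh

theorem fGa : Fn.StGa := Fn.stGa Fn.stPd
theorem fZs : Fn.StZs := Fn.stZs Fn.stPd fGa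
theorem fVz : Fn.StVz := Fn.stVz (Fn.stBl Fn.stPJ) (Fn.stRp Fn.stPJ) fZs
theorem fVf : Fn.StVf := Fn.stVf Fn.stVa fVz
theorem fVac : Fn.StVac := Fn.stVac fVf
theorem fE1 : Fn.StE1 := Fn.stE1 Fn.stPd
theorem fE2 : Fn.StE2 := Fn.stE2

/-- A weight that vanishes almost everywhere satisfies the inequality. -/
theorem star_of_zero {lam b p : ℝ} {U : ℝ → ℝ} (h : ∀ᵐ x, U x = 0) : Star lam b p U := by
  refine ⟨0, fun f _ => ?_⟩
  have h1 : ∫⁻ x : ℝ, (areaFn lam f x) ^ p * ENNReal.ofReal (U x) = 0 := by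
    rw [← lintegral_zero (μ := (volume : Measure ℝ))]
    refine lintegral_congr_ae ?_
    filter_upwards [h] with x hx
    rw [hx]
    simp
  rw [h1]
  simp

/-- The characterization for `b ≤ lam`. -/
theorem main_ble {lam b p : ℝ} {U : ℝ → ℝ} (hb : 0 < b) (hbl : b ≤ lam) (hp : 1 < p)
    (hU : IsWeight U) :
    Star lam b p U ↔ (∀ᵐ x, U x = 0) ∨ ¬ NVd U ∨ (Wt U ∧ ∃ μ : ℝ, lam < μ ∧ Sh μ U) := by
  have hlam : 0 < lam := lt_of_lt_of_le hb hbl
  constructor
  · intro hS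
    by_cases hNV : NV U
    · rcases fNecB lam b p U hb hbl (by linarith) hU hNV hS with h | h
      · exact Or.inl h
      · exact Or.inr (Or.inr h)
    · exact Or.inr (Or.inl fun h => hNV (fE1 U hU h))
  · rintro (h | h | ⟨hW, μ, hμ, hSh⟩)
    · exact star_of_zero h
    · exact fVac lam b p U hlam hb (by linarith) hU fun h' => h (fE2 U hU h')
    · exact Cr3.fSuff3 lam μ b p U hlam hμ hb hp hW hSh

end Pool.Agent.Work.MP_055a27_an.Sg
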